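import Pool.Agent.V11232.MS.Final

/-!
A connected graph whose mean subtree order is smaller than the average size of its connected
vertex sets.
-/

namespace Pool.Agent.Results.MP_589357_co.SubtreeMeanBelow

open SimpleGraph Finset

/-- `s_j(G)`: the number of subtrees of `G` (subgraphs that are trees) with exactly `j` vertices. -/
noncomputable def numSubtrees {V : Type} (G : SimpleGraph V) (j : ℕ) : ℕ :=
  Nat.card {H : G.Subgraph // H.coe.IsTree ∧ H.verts.ncard = j}

/-- `μ(G)`: the mean subtree order. -/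
noncomputable def meanSubtreeOrder {V : Type} [Fintype V] (G : SimpleGraph V) : ℚ :=
  (∑ j ∈ Finset.Icc 1 (Fintype.card V), (j : ℚ) * (numSubtrees G j : ℚ)) /
    (∑ j ∈ Finset.Icc 1 (Fintype.card V), (numSubtrees G j : ℚ))

open Classical in
/-- The finite family of connected vertex sets. -/
noncomputable def connectedSets {V : Type} [Fintype V] (G : SimpleGraph V) :
    Finset (Finset V) :=
  Finset.univ.filter (fun S : Finset V => (G.induce (S : Set V)).Connected)

/-- `av(G)`: the average size of a connected vertex set. -/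
noncomputable def meanConnectedSetSize {V : Type} [Fintype V] (G : SimpleGraph V) : ℚ :=
  (∑ S ∈ connectedSets G, (S.card : ℚ)) / ((connectedSets G).card : ℚ)

open Pool.Agent.V11232.MS

/-- Regrouping subtrees by their number of vertices. -/
theorem sum_numSubtrees {V : Type} [Fintype V] (G : SimpleGraph V) (φ : ℕ → ℚ) :
    ∑ j ∈ Finset.Icc 1 (Fintype.card V), φ j * (numSubtrees G j : ℚ) =
      ∑ S : Finset V, φ S.card *
        (({H : G.Subgraph | H.coe.IsTree ∧ H.verts = (S : Set V)}.ncard : ℕ) : ℚ) := by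
  classical
  have : Fintype G.Subgraph := Fintype.ofFinite _
  set s : Finset G.Subgraph := Finset.univ.filter (fun H => H.coe.IsTree) with hs
  have h1 : ∑ j ∈ Finset.Icc 1 (Fintype.card V), φ j * (numSubtrees G j : ℚ) =
      ∑ H ∈ s, φ H.verts.ncard := by
    rw [← Finset.sum_fiberwise_of_maps_to (s := s) (t := Finset.Icc 1 (Fintype.card V))
      (g := fun H => H.verts.ncard)]
    · refine Finset.sum_congr rfl (fun j _ => ?_)
      have e1 : ∑ H ∈ s.filter (fun H => H.verts.ncard = j), φ H.verts.ncard =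
          ∑ H ∈ s.filter (fun H => H.verts.ncard = j), φ j := by
        refine Finset.sum_congr rfl (fun H hH => ?_)
        rw [(Finset.mem_filter.1 hH).2]
      rw [e1, Finset.sum_const, nsmul_eq_mul, mul_comm]
      congr 2
      rw [numSubtrees, Nat.card_eq_fintype_card, Fintype.card_subtype]
      congr 1
      ext H
      simp [hs]
    · intro H hH
      have hT := (Finset.mem_filter.1 hH).2
      rw [Finset.mem_Icc]
      constructor
      · have hne := hT.connected.nonempty
        obtain ⟨v, hv⟩ := hne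
        rw [Nat.one_le_iff_ne_zero]
        exact Set.ncard_ne_zero_of_mem hv (Set.toFinite _)
      · have := Set.ncard_le_ncard (Set.subset_univ H.verts) (Set.toFinite _)
        rwa [Set.ncard_univ, Nat.card_eq_fintype_card] at this
  rw [h1, ← Finset.sum_fiberwise_of_maps_to (s := s) (t := Finset.univ)
      (g := fun H => H.verts.toFinset) (fun _ _ => Finset.mem_univ _)]
  refine Finset.sum_congr rfl (fun S _ => ?_)
  have e1 : ∑ H ∈ s.filter (fun H => H.verts.toFinset = S), φ H.verts.ncard =
      ∑ H ∈ s.filter (fun H => H.verts.toFinset = S), φ S.card := by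
    refine Finset.sum_congr rfl (fun H hH => ?_)
    rw [← (Finset.mem_filter.1 hH).2, Set.ncard_eq_toFinset_card']
  rw [e1, Finset.sum_const, nsmul_eq_mul, mul_comm]
  congr 2
  rw [Set.ncard_eq_toFinset_card']
  congr 1
  ext H
  simp only [hs, Finset.mem_filter, Finset.mem_univ, true_and, Set.mem_toFinset, Set.mem_ofPred_eq]
  constructor
  · rintro ⟨a, b⟩
    refine ⟨a, ?_⟩
    rw [← b]
    simp
  · rintro ⟨a, b⟩
    refine ⟨a, ?_⟩
    ext v
    rw [Set.mem_toFinset, b]
    simp

variable {n q k : ℕ}

theorem mean_U (m : ℤ)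
    (h : 0 < ∑ S : Finset (Vx n (q + 1) k), aU S * ((S.card : ℤ) - m)) :
    (m : ℚ) < meanConnectedSetSize (Gr n (q + 1) k) := by
  classical
  have hsum : ∀ f : Finset (Vx n (q + 1) k) → ℤ,
      ∑ S ∈ connectedSets (Gr n (q + 1) k), f S = ∑ S : Finset (Vx n (q + 1) k), aU S * f S := by
    intro f
    rw [connectedSets, Finset.sum_filter]
    refine Finset.sum_congr rfl (fun S _ => ?_)
    rw [aU]
    by_cases hc : (ind (S : Set (Vx n (q + 1) k))).Connected
    · rw [if_pos hc, if_pos (connected_induce_iff.2 hc), one_mul]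
    · rw [if_neg hc, if_neg (fun h => hc (connected_induce_iff.1 h)), zero_mul]
  rw [← hsum, Finset.sum_sub_distrib, Finset.sum_const, nsmul_eq_mul] at h
  have hpos : 0 < (connectedSets (Gr n (q + 1) k)).card := by
    rcases Nat.eq_zero_or_pos (connectedSets (Gr n (q + 1) k)).card with h0 | h0
    · rw [Finset.card_eq_zero] at h0
      rw [h0] at h
      simp at h
    · exact h0
  rw [meanConnectedSetSize, lt_div_iff₀ (by exact_mod_cast hpos)]
  have h' : ((connectedSets (Gr n (q + 1) k)).card : ℤ) * m <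
      ∑ S ∈ connectedSets (Gr n (q + 1) k), (S.card : ℤ) := by linarith
  have h'' : (((connectedSets (Gr n (q + 1) k)).card : ℤ) * m : ℚ) <
      ((∑ S ∈ connectedSets (Gr n (q + 1) k), (S.card : ℤ) : ℤ) : ℚ) := by exact_mod_cast h'
  push_cast at h''
  linarith

theorem mean_W (m : ℤ)
    (h : ∑ S : Finset (Vx n (q + 1) k), aW S * ((S.card : ℤ) - m) < 0) :
    meanSubtreeOrder (Gr n (q + 1) k) < (m : ℚ) := by
  classical
  have h1 := sum_numSubtrees (Gr n (q + 1) k) (fun j => (j : ℚ))
  have h2 := sum_numSubtrees (Gr n (q + 1) k) (fun _ => (1 : ℚ))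
  simp only [one_mul] at h2
  rw [meanSubtreeOrder, h1, h2]
  have e1 : ∑ S : Finset (Vx n (q + 1) k), (S.card : ℚ) *
        (({H : (Gr n (q + 1) k).Subgraph | H.coe.IsTree ∧
          H.verts = (S : Set (Vx n (q + 1) k))}.ncard : ℕ) : ℚ) =
      ((∑ S : Finset (Vx n (q + 1) k), aW S * (S.card : ℤ) : ℤ) : ℚ) := by
    push_cast
    refine Finset.sum_congr rfl (fun S _ => ?_)
    rw [mul_comm]
    rfl
  have e2 : ∑ S : Finset (Vx n (q + 1) k),
        (({H : (Gr n (q + 1) k).Subgraph | H.coe.IsTree ∧
          H.verts = (S : Set (Vx n (q + 1) k))}.ncard : ℕ) : ℚ) =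
      ((∑ S : Finset (Vx n (q + 1) k), aW S : ℤ) : ℚ) := by
    push_cast
    rfl
  rw [e1, e2]
  have h3 : ∑ S : Finset (Vx n (q + 1) k), aW S * ((S.card : ℤ) - m) =
      ∑ S : Finset (Vx n (q + 1) k), aW S * (S.card : ℤ) -
        (∑ S : Finset (Vx n (q + 1) k), aW S) * m := by
    rw [Finset.sum_mul, ← Finset.sum_sub_distrib]
    refine Finset.sum_congr rfl (fun S _ => ?_)
    ring
  rw [h3] at h
  have hnn : 0 ≤ ∑ S : Finset (Vx n (q + 1) k), aW S :=
    Finset.sum_nonneg (fun S _ => aW_nonneg S)
  have hpos : 0 < ∑ S : Finset (Vx n (q + 1) k), aW S := by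
    rcases hnn.lt_or_eq with h0 | h0
    · exact h0
    · exfalso
      rw [← h0] at h
      have : 0 ≤ ∑ S : Finset (Vx n (q + 1) k), aW S * (S.card : ℤ) :=
        Finset.sum_nonneg (fun S _ => mul_nonneg (aW_nonneg S) (by positivity))
      linarith
  rw [div_lt_iff₀ (by exact_mod_cast hpos)]
  have h4 : ∑ S : Finset (Vx n (q + 1) k), aW S * (S.card : ℤ) <
      m * ∑ S : Finset (Vx n (q + 1) k), aW S := by linarith
  exact_mod_cast h4

/-- There is a finite connected graph `G` with `μ(G) < av(G)`; in fact the gap can exceed `600`. -/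
theorem result : ∃ (V : Type) (_ : Fintype V) (G : SimpleGraph V), G.Connected ∧
    meanSubtreeOrder G + 600 < meanConnectedSetSize G := by
  refine ⟨Vx 1000000 (194999 + 1) 1390061, inferInstance, Gr 1000000 (194999 + 1) 1390061,
    gr_connected _ _ _, ?_⟩
  have h1 := mean_U (n := 1000000) (q := 194999) (k := 1390061) 2467762
    (pos_U 1000000 194999 1390061 2467762 312300 (by norm_num) (by norm_num) (by norm_num)
      (by norm_num))
  have h2 := mean_W (n := 1000000) (q := 194999) (k := 1390061) 2467152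
    (neg_W 1000000 194999 1390061 2467152 312910 (by norm_num) (by norm_num) (by norm_num)
      (by norm_num))
  have h3 : ((2467762 : ℤ) : ℚ) = ((2467152 : ℤ) : ℚ) + 610 := by norm_num
  rw [h3] at h1
  linarith

end Pool.Agent.Results.MP_589357_co.SubtreeMeanBelow
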